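import Mathlib
import Pool.Agent.Lib.MP_e7ecf3_lc.Space

/-!
Negative answer to Q2: the infinite dihedral group (`DihedralGroup 0`) is strongly hyperfinite,
although one of its free, topologically transitive continuous actions on a nonempty perfect compact
zero-dimensional Polish space (a Cantor space) is not topologically orbit equivalent to an action
of the integers.

Groups are discrete, so a continuous action is an action by continuous maps
(`ContinuousConstSMul`, and `ContinuousConstVAdd` for the additive group of integers).
-/

namespace Pool.Agent.Results.MP_e7ecf3_lc.Q2False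

/-- The relation `E₀` on Cantor space: agreement at all but finitely many coordinates. -/
def E0 (x y : ℕ → Bool) : Prop := {n | x n ≠ y n}.Finite

/-- Compact zero-dimensional (the clopen sets form a basis) Polish space. -/
def IsCompactZeroDimPolish (X : Type) [TopologicalSpace X] : Prop :=
  CompactSpace X ∧ PolishSpace X ∧ TopologicalSpace.IsTopologicalBasis {s : Set X | IsClopen s}

/-- Free action: only the identity has a fixed point. -/
def IsFreeAction (Γ X : Type) [Group Γ] [MulAction Γ X] : Prop :=
  ∀ (g : Γ) (x : X), g • x = x → g = 1

/-- Every free continuous action of `Γ` on a compact zero-dimensional Polish space has an orbit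
equivalence relation that reduces continuously to `E₀`. -/
def StronglyHyperfinite (Γ : Type) [Group Γ] : Prop :=
  ∀ (X : Type) [TopologicalSpace X] [MulAction Γ X] [ContinuousConstSMul Γ X],
    IsCompactZeroDimPolish X → IsFreeAction Γ X →
      ∃ f : X → (ℕ → Bool), Continuous f ∧
        ∀ x x' : X, (∃ g : Γ, x' = g • x) ↔ E0 (f x) (f x')

/-- The orbit equivalence relation of `Γ` on `X` is topologically orbit equivalent to an action
of `ℤ`: some homeomorphism onto a compact zero-dimensional Polish space with a continuous action
of `ℤ` maps each `Γ`-orbit onto a `ℤ`-orbit. -/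
def OrbitEquivalentToIntAction (Γ X : Type) [Group Γ] [TopologicalSpace X] [MulAction Γ X] :
    Prop :=
  ∃ (Y : Type) (_ : TopologicalSpace Y) (_ : AddAction ℤ Y) (_ : ContinuousConstVAdd ℤ Y),
    IsCompactZeroDimPolish Y ∧
      ∃ φ : X ≃ₜ Y, ∀ x : X, ∃ y : Y, φ '' MulAction.orbit Γ x = AddAction.orbit ℤ y

open Pool.Agent.Lib.MP_e7ecf3_lc in
theorem result :
    Countable (DihedralGroup 0) ∧ StronglyHyperfinite (DihedralGroup 0) ∧
      ∃ (X : Type) (_ : TopologicalSpace X) (_ : MulAction (DihedralGroup 0) X)
        (_ : ContinuousConstSMul (DihedralGroup 0) X),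
        IsCompactZeroDimPolish X ∧ Nonempty X ∧ PerfectSpace X ∧
          IsFreeAction (DihedralGroup 0) X ∧
          MulAction.IsTopologicallyTransitive (DihedralGroup 0) X ∧
          ¬ OrbitEquivalentToIntAction (DihedralGroup 0) X := by
  refine ⟨inferInstance, ?_, XX, inferInstance, inferInstance, inferInstance,
    ⟨inferInstance, inferInstance, isTopologicalBasis_isClopen⟩, ⟨x0⟩, inferInstance, XX_free,
    XX_trans, ?_⟩
  · rintro X _ _ _ ⟨_, _, hz⟩ hfree
    exact di_reduction hz hfree
  · rintro ⟨Y, _, _, _, _, φ, hφ⟩
    exact XX_not φ hφ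

end Pool.Agent.Results.MP_e7ecf3_lc.Q2False
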